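import Mathlib
import Pool.Agent.V11281.Bt.Pow

/-!
# Betti numbers of powers of a monomial ideal across all primes

For all monomials `x^(m 0), …, x^(m (r-1))` in `n` variables and all `i`, only finitely many
sequences `h ↦ β_i (I^h)` occur as the field runs over all the prime fields `𝔽_p` (in fact over
all fields).
-/

set_option autoImplicit false

open MvPolynomial

namespace Pool.Agent.Results.MP_f65b1b_al.FinitelyManySequences

open Pool.Agent.V11281.Bt

/-- The field, as an index, only enters through the homology of finitely many families. -/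
theorem seq_finite {n r : ℕ} (m : Fin r → (Fin n →₀ ℕ)) (i : ℕ) {ι : Type*} (K : ι → Type)
    (hK : ∀ p, Field (K p)) :
    Set.Finite (Set.range fun (p : ι) (h : ℕ) =>
      @betti n (K p) (hK p) (@monoIdeal n (K p) (hK p) r m ^ (h + 1)) i) := by
  classical
  obtain ⟨N, hN⟩ : ∃ N, ∀ t j, m t j ≤ N := by
    refine ⟨∑ t, ∑ j, m t j, fun t j => ?_⟩
    have h1 : m t j ≤ ∑ j, m t j := Finset.single_le_sum (f := fun j => m t j)
      (fun _ _ => Nat.zero_le _) (Finset.mem_univ j)
    have h2 : ∑ j, m t j ≤ ∑ t, ∑ j, m t j := Finset.single_le_sum (f := fun t => ∑ j, m t j)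
      (fun _ _ => Nat.zero_le _) (Finset.mem_univ t)
    exact h1.trans h2
  set box : ℕ → Finset (Fin n →₀ ℕ) := fun h =>
    Finset.Iic (Finsupp.equivFunOnFinite.symm (fun _ : Fin n => N * (h + 1))) with hbox
  have key : ∀ (p : ι) (h : ℕ), @betti n (K p) (hK p) (@monoIdeal n (K p) (hK p) r m ^ (h + 1)) i =
      ∑ a ∈ box h, @hdim n (K p) (hK p) (Kos (Aexp m (h + 1)) a) i := by
    intro p h
    let _ := hK p
    apply betti_pow (K p) m N hN (h + 1) i
    intro a ha
    rw [hbox, Finset.mem_Iic]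
    exact ha
  set Φ : (Set (Finset (Fin n)) → Fin (2 ^ n + 1)) → (ℕ → ℕ) := fun φ h =>
    ∑ a ∈ box h, (φ (Kos (Aexp m (h + 1)) a) : ℕ) with hΦ
  refine (Set.finite_range Φ).subset ?_
  rintro s ⟨p, rfl⟩
  let _ := hK p
  refine ⟨fun Δ => ⟨hdim (K p) Δ i, Nat.lt_succ_of_le (hdim_le (K p) Δ i)⟩, ?_⟩
  funext h
  exact (key p h).symm

/-- The same over all fields. -/
theorem all_fields (n r : ℕ) (m : Fin r → (Fin n →₀ ℕ)) (i : ℕ) :
    Set.Finite {s : ℕ → ℕ | ∃ (K : Type) (_ : Field K),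
      s = fun h => betti K (monoIdeal K m ^ (h + 1)) i} := by
  refine (seq_finite m i (ι := Σ K : Type, Field K) (fun p => p.1) (fun p => p.2)).subset ?_
  rintro s ⟨K, hK, rfl⟩
  exact ⟨⟨K, hK⟩, rfl⟩

/-- **Main theorem.** For monomials with exponent vectors `m 0, …, m (r - 1)` in `n` variables and
`i : ℕ`, let `s_p (h) = β_i (I_{𝔽_p} ^ (h + 1))`. The set of the sequences `s_p`, for all the
primes `p`, is finite. -/
theorem result (n r : ℕ) (m : Fin r → (Fin n →₀ ℕ)) (i : ℕ) :
    Set.Finite {s : ℕ → ℕ | ∃ (p : ℕ) (_ : Fact p.Prime),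
      s = fun h => betti (ZMod p) (monoIdeal (ZMod p) m ^ (h + 1)) i} := by
  refine (all_fields n r m i).subset ?_
  rintro s ⟨p, hp, rfl⟩
  exact ⟨ZMod p, inferInstance, rfl⟩

end Pool.Agent.Results.MP_f65b1b_al.FinitelyManySequences
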